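import Pool.Agent.N219.AZ.Tri

open MeasureTheory Set Filter Topology Metric Pool.Agent.N219.AZ
open scoped Real InnerProductSpace

namespace Pool.Agent.Results.MP_9c48c1_an.BoxesAndTriangles

/-- (1) The best constant `A_{n,2}` of a box in `ℝⁿ` with sides `L i`, in any position, is
`(nⁿ π^(2(n-1)) / ((∏ L i)² ∑ 1/(L i)²))^(1/(2n))`, and the product of sines is extremal.

(2) Two-sided bounds for all domains: `A_{n,2}(Ω)` is at least the value of any box containing `Ω` and
at most the value of any box contained in `Ω`.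

(3) For an open right triangle in the plane with legs `p`, `q` and hypotenuse `c = √(p² + q²)`,
`A_{2,2} = √(2π/c)`, and there is no extremal function, neither among the admissible functions nor in
`W_0^{1,2}`. -/
theorem result :
    (∀ (n : ℕ), 2 ≤ n → ∀ (b : OrthonormalBasis (Fin n) ℝ (E n)) (a L : Fin n → ℝ),
      (∀ i, 0 < L i) →
        BestConstant 2 (Box b a L) (boxValue L) ∧
        IsExtremal 2 (Box b a L) (boxValue L) (sineF b a L) (sineG b a L)) ∧
    (∀ (n : ℕ), 2 ≤ n → ∀ (b : OrthonormalBasis (Fin n) ℝ (E n)) (a L : Fin n → ℝ),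
      (∀ i, 0 < L i) → ∀ Ω : Set (E n),
        (Ω ⊆ Box b a L → Valid 2 Ω (boxValue L)) ∧
        (Box b a L ⊆ Ω → ∀ A, Valid 2 Ω A → A ≤ boxValue L)) ∧
    (∀ p q : ℝ, 0 < p → 0 < q →
      BestConstant 2 (Triangle p q) (√(2 * π / √(p ^ 2 + q ^ 2))) ∧
      (∀ (f : E 2 → ℝ) (g : E 2 → E 2),
        ¬ IsExtremal 2 (Triangle p q) (√(2 * π / √(p ^ 2 + q ^ 2))) f g) ∧
      (∀ f : E 2 → ℝ, Adm (Triangle p q) f → f ≠ 0 →
        √(2 * π / √(p ^ 2 + q ^ 2)) * lnorm 2 f ^ ((((2 : ℕ) : ℝ) - 1) / ((2 : ℕ) : ℝ)) *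
          lnorm 2 (gradient f) ^ (1 / ((2 : ℕ) : ℝ)) < energy 2 (gradient f))) := by
  refine ⟨fun n hn b a L hL => ⟨best_box b a hn hL, extremal_box b a hn hL⟩,
    fun n hn b a L hL Ω => ⟨fun h => valid_of_subset hn hL h, fun h A hA => upper hn hL h hA⟩, ?_⟩
  intro p q hp hq
  have hL : ∀ i, 0 < (![p, q] : Fin 2 → ℝ) i := by intro i; fin_cases i <;> simpa
  have hv : boxValue ![p, q] = √(2 * π / √(p ^ 2 + q ^ 2)) := by
    rw [boxValue_two hL]
    simp only [Matrix.cons_val_zero, Matrix.cons_val_one, Matrix.cons_val_fin_one]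
  rw [← hv]
  refine ⟨tri_best hp hq, tri_no_extremal hp hq, fun f hf hne => ?_⟩
  refine lt_of_le_of_ne ((tri_best hp hq).1 f hf) fun heq => ?_
  refine tri_no_extremal hp hq f (gradient f) ⟨adm_isW0 hf, ?_, heq.symm⟩
  intro h0
  apply hne
  exact (hf.1.continuous.ae_eq_iff_eq volume continuous_zero).1 h0

end Pool.Agent.Results.MP_9c48c1_an.BoxesAndTriangles
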